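import Pool.Agent.helper84.NR.SpecW

set_option autoImplicit false

namespace Pool.Agent.helper84.NR

open scoped Classical
open Finset

private theorem CA2_acc {V F : Type} (M : PMap V F) (x y : V) (A : F) (v : V) (m : ℕ) (a : ℕ → V)
    (h : Acc M x y A v m a) : ∀ j, j ≤ m → OnV M.toCyc A (a j) := by
  obtain ⟨h1, -, -, -, h5, -, -⟩ := h
  intro j hj
  rcases Nat.lt_or_ge j m with hlt | hge
  · exact ((h_EDG V F M).1 A _ _ (h5 j hlt)).1
  · have e : j = (m - 1) + 1 := by omega
    rw [e]
    exact ((h_EDG V F M).1 A _ _ (h5 (m - 1) (by omega))).2.1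

theorem CA2 : CA2_stmt := by
  intro V F M x y A B v w m m' a b hAx hBy hA hB hxw hvy HA HB
  have onA := CA2_acc M x y A v m a HA
  have onB := CA2_acc M y x B w m' b HB
  obtain ⟨a1, a2, a3, a4, a5, a6, a7⟩ := HA
  obtain ⟨b1, b2, b3, b4, b5, b6, b7⟩ := HB
  obtain ⟨vA, wA, vw⟩ := (h_EDG V F M).1 A v w hA
  obtain ⟨vB, wB, -⟩ := (h_EDG V F M).1 B v w hB
  have xnb : ¬ ∃ B, OnV M.toCyc B y ∧ OnV M.toCyc B x := by
    have := a6 0 (by omega)
    rwa [a2] at this
  have ynb : ¬ ∃ B, OnV M.toCyc B x ∧ OnV M.toCyc B y := by
    have := b6 0 (by omega)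
    rwa [b2] at this
  have hxw' : x ≠ w := fun h => xnb ⟨B, hBy, by rw [h]; exact wB⟩
  have hyv' : y ≠ v := fun h => ynb ⟨A, hAx, by rw [h]; exact vA⟩
  let q : ℕ → V := fun i => if i ≤ m then a i else b (m + 1 + m' - i)
  have qa : ∀ i, i ≤ m → q i = a i := fun i hi => if_pos hi
  have qb : ∀ i, m < i → q i = b (m + 1 + m' - i) := fun i hi => if_neg (by omega)
  have cross : ∀ i k, i ≤ m → k ≤ m' → a i ≠ b k := by
    intro i k hi hk h
    rcases Nat.lt_or_ge i m with hlt | hge
    · apply a6 i hlt
      refine ⟨B, hBy, ?_⟩
      rw [h]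
      exact onB k hk
    · have ei : i = m := by omega
      rw [ei, a3] at h
      rcases Nat.lt_or_ge k m' with klt | kge
      · apply b6 k klt
        refine ⟨A, hAx, ?_⟩
        rw [← h]
        exact vA
      · have ek : k = m' := by omega
        rw [ek, b3] at h
        exact vw h
  have edge : ∀ i, i < m + 1 + m' →
      (i < m ∧ OnE M.toCyc A s(q i, q (i + 1))) ∨
      (i = m ∧ OnE M.toCyc A s(q i, q (i + 1)) ∧ OnE M.toCyc B s(q i, q (i + 1))) ∨
      (m < i ∧ OnE M.toCyc B s(q i, q (i + 1))) := by
    intro i hi
    rcases lt_trichotomy i m with h | h | h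
    · left
      refine ⟨h, ?_⟩
      rw [qa i h.le, qa (i + 1) (by omega)]
      exact a5 i h
    · right
      left
      refine ⟨h, ?_⟩
      rw [qa i (by omega), qb (i + 1) (by omega), h, a3]
      have e : m + 1 + m' - (m + 1) = m' := by omega
      rw [e, b3]
      exact ⟨hA, hB⟩
    · right
      right
      refine ⟨h, ?_⟩
      rw [qb i h, qb (i + 1) (by omega)]
      have e : m + 1 + m' - i = (m + 1 + m' - (i + 1)) + 1 := by omega
      rw [e, Sym2.eq_swap]
      exact b5 _ (by omega)
  refine ⟨m + 1 + m', q, ?_, ?_, ?_, ?_, ?_⟩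
  · rw [qa 0 (by omega), a2]
  · rw [qb _ (by omega)]
    have e : m + 1 + m' - (m + 1 + m') = 0 := by omega
    rw [e, b2]
  · intro i j hi hj h
    rcases Nat.lt_or_ge m i with h1 | h1
    · rcases Nat.lt_or_ge m j with h2 | h2
      · rw [qb i h1, qb j h2] at h
        have := b4 _ _ (by omega) (by omega) h
        omega
      · rw [qb i h1, qa j h2] at h
        exact absurd h.symm (cross j _ h2 (by omega))
    · rcases Nat.lt_or_ge m j with h2 | h2
      · rw [qa i h1, qb j h2] at h
        exact absurd h (cross i _ h1 (by omega))
      · rw [qa i h1, qa j h2] at h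
        exact a4 _ _ h1 h2 h
  · intro i hi
    rcases edge i hi with h | h | h
    · exact ⟨A, h.2⟩
    · exact ⟨A, h.2.1⟩
    · exact ⟨B, h.2⟩
  · intro f hf i j hij hj hqi hqj k hik hkj
    rcases hf with hf | hf
    · -- a face at `x`
      have far : ∀ l, m + 1 < l → l ≤ m + 1 + m' → ¬ OnV M.toCyc f (q l) := by
        intro l h1 h2 h3
        rw [qb l (by omega)] at h3
        exact b6 _ (by omega) ⟨f, hf, h3⟩
      by_cases hfA : f = A
      · have hj1 : j ≤ m + 1 := by
          by_contra hcon
          exact far j (by omega) hj hqj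
        rw [hfA]
        rcases edge k (by omega) with h | h | h
        · exact h.2
        · exact h.2.1
        · omega
      · have hle : ∀ l, l ≤ m + 1 + m' → OnV M.toCyc f (q l) → l ≤ 1 := by
          intro l h1 h2
          rcases Nat.lt_or_ge (m + 1) l with h3 | h3
          · exact absurd h2 (far l h3 h1)
          · rcases Nat.lt_or_ge m l with h4 | h4
            · have el : l = m + 1 := by omega
              exfalso
              rw [qb l h4, el] at h2
              have e : m + 1 + m' - (m + 1) = m' := by omega
              rw [e, b3] at h2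
              have := M.poly f A hfA x w hxw' hf h2 hAx wA
              exact hxw ⟨A, this.2.1⟩
            · rw [qa l h4] at h2
              rcases Nat.eq_zero_or_pos l with h5 | h5
              · omega
              · exact (a7 f hf hfA l h5 h4 h2).le
        have hj1 := hle j hj hqj
        have ei : i = 0 := by omega
        have ej : j = 1 := by omega
        have ek : k = 0 := by omega
        rw [ei] at hqi
        rw [ej] at hqj
        rw [ek]
        refine (h_EDG V F M).2 f _ _ ?_ hqi hqj
        rcases edge 0 (by omega) with h | h | h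
        · exact ⟨A, h.2⟩
        · exact ⟨A, h.2.1⟩
        · exact ⟨B, h.2⟩
    · -- a face at `y`
      have far : ∀ l, l < m → ¬ OnV M.toCyc f (q l) := by
        intro l h1 h3
        rw [qa l (by omega)] at h3
        exact a6 _ (by omega) ⟨f, hf, h3⟩
      by_cases hfB : f = B
      · have hi1 : m ≤ i := by
          by_contra hcon
          exact far i (by omega) hqi
        rw [hfB]
        rcases edge k (by omega) with h | h | h
        · omega
        · exact h.2.2
        · exact h.2
      · have hle : ∀ l, l ≤ m + 1 + m' → OnV M.toCyc f (q l) → m + m' ≤ l := by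
          intro l h1 h2
          rcases Nat.lt_or_ge l m with h3 | h3
          · exact absurd h2 (far l h3)
          · rcases Nat.lt_or_ge m l with h4 | h4
            · rw [qb l h4] at h2
              rcases Nat.eq_zero_or_pos (m + 1 + m' - l) with h5 | h5
              · omega
              · have := b7 f hf hfB _ h5 (by omega) h2
                omega
            · have el : l = m := by omega
              exfalso
              rw [qa l h4, el, a3] at h2
              have := M.poly f B hfB y v hyv' hf h2 hBy vB
              apply hvy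
              have h6 := this.2.1
              rw [Sym2.eq_swap] at h6
              exact ⟨B, h6⟩
        have hi1 := hle i (by omega) hqi
        have ei : i = m + m' := by omega
        have ej : j = m + m' + 1 := by omega
        have ek : k = m + m' := by omega
        rw [ei] at hqi
        rw [ej] at hqj
        rw [ek]
        refine (h_EDG V F M).2 f _ _ ?_ hqi hqj
        rcases edge (m + m') (by omega) with h | h | h
        · exact ⟨A, h.2⟩
        · exact ⟨A, h.2.1⟩
        · exact ⟨B, h.2⟩

end Pool.Agent.helper84.NR
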